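import Mathlib
import Pool.Agent.H402AW.Final

open Set
open scoped ContDiff

namespace Pool.Agent.Results.MP_09540e_an.AxiGalerkinBlowup

open Pool.Agent.H402AW

/-- Finite-time blow-up at a point of the axis, from an `L²`-dense set of axisymmetric data and
after an arbitrarily short time, for infinite-dimensional Galerkin projections, to spaces of
axisymmetric fields, of the unforced Navier-Stokes equations on `ℝ³`, with the full viscosity and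
the exact quadratic term. One space serves all viscosities. -/
theorem result (w : V → V) (hw : ContDiff ℝ ∞ w) (hwc : HasCompactSupport w)
    (hwd : ∀ x, divg w x = 0) (hwa : Axi w) (c : ℝ) (p : V) (hpc : p = c • ev 2)
    (hp : p ∉ tsupport w) (ε : ℝ) (hε : 0 < ε) :
    ∃ Φ : ℕ → V → V,
      (∀ k, ContDiff ℝ ∞ (Φ k) ∧ HasCompactSupport (Φ k) ∧ (∀ x, divg (Φ k) x = 0) ∧
        Axi (Φ k) ∧ 0 < ip (Φ k) (Φ k)) ∧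
      (∀ j k, j ≠ k → ip (Φ j) (Φ k) = 0) ∧ (∃ K, PBd Φ K) ∧
      (∃ (φ : V → V) (κ r : ℕ → ℝ), ∀ n x, Φ (n + 1) x = κ n • φ (r n • (x - p))) ∧
      (∀ x, ε ≤ ‖x - p‖ → Φ 0 x = w x ∧ ∀ n, Φ (n + 1) x = 0) ∧
      ip (Φ 0 - w) (Φ 0 - w) < ε ∧
      ∀ v ∈ Submodule.span ℝ (range Φ), ∀ ν₀ > 0, ∀ η > 0,
      ∃ u₀ ∈ Submodule.span ℝ (range Φ), ip (u₀ - v) (u₀ - v) < η ∧
      (ip v (Φ 0) ≠ 0 → ∀ x, η ≤ ‖x - p‖ → u₀ x = v x) ∧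
      ∀ ν, 0 < ν → ν ≤ ν₀ →
      ∃ (Ts : ℝ) (u : ℝ → V → V), 0 < Ts ∧ Ts < η ∧
        ContDiffOn ℝ ∞ (fun z : ℝ × V => u z.1 z.2) (Ioo 0 Ts ×ˢ univ) ∧
        ContinuousOn (fun z : ℝ × V => u z.1 z.2) (Ico 0 Ts ×ˢ univ) ∧
        (∀ T, 0 ≤ T → T < Ts → CSol ν Φ u₀ T u ∧ ∃ C, ∀ t ∈ Icc 0 T, ∀ x, ‖u t x‖ ≤ C) ∧
        (∀ t, 0 ≤ t → t < Ts → ContDiff ℝ ∞ (u t) ∧ Axi (u t) ∧
          ip (u t) (u t) + 2 * ν * ∫ s in (0)..t, dir (u s) (u s) = ip u₀ u₀) ∧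
        (∀ C, ∃ t, 0 ≤ t ∧ t < Ts ∧ ∃ x, C < ‖u t x‖) ∧
        (∀ q : ℝ, 2 < q → ∀ C, ∃ t, 0 ≤ t ∧ t < Ts ∧ C < ∫ x, ‖u t x‖ ^ q) ∧
        (∀ δ > 0, ∃ C, ∀ t, 0 ≤ t → t < Ts → ∀ x, δ ≤ ‖x - p‖ → ‖u t x‖ ≤ C) ∧
        (∀ T v, 0 ≤ T → CSol ν Φ u₀ T v → T < Ts ∧ ∀ t ∈ Icc 0 T, v t = u t) :=
  final w hw hwc hwd hwa c p hpc hp ε hε

end Pool.Agent.Results.MP_09540e_an.AxiGalerkinBlowup
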